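import Pool.Agent.W593.IR.Stm2

/-!
# The counting bound gives the interface
-/

set_option autoImplicit false

namespace Pool.Agent.W804.IR

open Finset Pool.Agent.W890.SF Filter Topology Pool.Agent.W593.IR

/-- the function of `t = ρ / k` majorising the bound -/
noncomputable def GG (k : ℕ) (A t : ℝ) : ℝ :=
  max ((k * t) ^ k) (1 - (1 - t) ^ k + (k * t) ^ k * max A 0)

theorem GG_cont (k : ℕ) (A : ℝ) : Continuous (GG k A) := by
  unfold GG
  apply Continuous.max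
  · fun_prop
  · fun_prop

theorem GG_mono (k : ℕ) (A t t' : ℝ) (h0 : 0 ≤ t) (h1 : t ≤ t') (h2 : t' ≤ 1) :
    GG k A t ≤ GG k A t' := by
  have e1 : ((k : ℝ) * t) ^ k ≤ ((k : ℝ) * t') ^ k := by
    apply pow_le_pow_left₀
    · positivity
    · exact mul_le_mul_of_nonneg_left h1 (Nat.cast_nonneg k)
  have e2 : (1 - t') ^ k ≤ (1 - t) ^ k := by
    apply pow_le_pow_left₀
    · linarith
    · linarith
  have e3 : ((k : ℝ) * t) ^ k * max A 0 ≤ ((k : ℝ) * t') ^ k * max A 0 :=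
    mul_le_mul_of_nonneg_right e1 (le_max_right _ _)
  unfold GG
  apply max_le_max e1
  linarith

theorem Bd_le (k : ℕ) (C ρ : ℝ) (hk : 1 ≤ k) (h0 : 0 ≤ ρ) :
    Bd k C ρ ≤ GG k ((1 - 1 / (k : ℝ)) ^ k - (1 - (1 - 1 / (k : ℝ)) ^ (k - 1)) / C) (ρ / k) := by
  have hk0 : (k : ℝ) ≠ 0 := by positivity
  unfold Bd GG
  have e : (k : ℝ) * (ρ / k) = ρ := by field_simp
  rw [e]
  apply max_le_max le_rfl
  have h1 : 0 ≤ ρ ^ k := pow_nonneg h0 k
  have h2 := mul_le_mul_of_nonneg_left (le_max_left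
    ((1 - 1 / (k : ℝ)) ^ k - (1 - (1 - 1 / (k : ℝ)) ^ (k - 1)) / C) 0) h1
  linarith

theorem GG_le (k : ℕ) (C x : ℝ) (h : CondB k C x) :
    GG k ((1 - 1 / (k : ℝ)) ^ k - (1 - (1 - 1 / (k : ℝ)) ^ (k - 1)) / C) x ≤ mv k x := by
  unfold GG
  apply max_le
  · exact le_max_right _ _
  · unfold CondB at h
    rcases le_total 0 ((1 - 1 / (k : ℝ)) ^ k - (1 - (1 - 1 / (k : ℝ)) ^ (k - 1)) / C) with hA | hA
    · rw [max_eq_left hA]
      exact h
    · rw [max_eq_right hA, mul_zero, add_zero]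
      exact le_max_left _ _

/-- the counting bound gives the interface -/
theorem bdib (h : S_BD) : S_BDIB := by
  intro r C hr hC hS x hx hx1 hB ε hε
  set A : ℝ := (1 - 1 / ((r + 1 : ℕ) : ℝ)) ^ (r + 1) -
    (1 - (1 - 1 / ((r + 1 : ℕ) : ℝ)) ^ (r + 1 - 1)) / C with hA
  have hG := GG_le (r + 1) C x hB
  rw [← hA] at hG
  have hr1 : (1 : ℝ) ≤ (r : ℝ) := by exact_mod_cast hr
  have hx2 : x < 1 := by nlinarith
  obtain ⟨δ, hδ, hδ'⟩ := Metric.continuous_iff.1 (GG_cont (r + 1) A) x ε hε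
  set η : ℝ := min (δ / 2) (1 - x) with hη
  have hη0 : 0 < η := lt_min (by linarith) (by linarith)
  have hη1 : η ≤ δ / 2 := min_le_left _ _
  have hη2 : η ≤ 1 - x := min_le_right _ _
  refine ⟨η, hη0, ?_⟩
  intro V _ _ y s hy hs hsV hsup hsum hsη
  have hN : (0 : ℝ) < (Fintype.card V : ℝ) := by
    have : 0 < Fintype.card V := lt_of_lt_of_le hs hsV
    exact_mod_cast this
  have hsum' : ((r : ℝ) + 1) * ∑ v, y v ≤ (s : ℝ) := by
    have := hsum
    push_cast at this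
    exact this
  have h1 := h r C hr hC hS V y s hy hs hsV hsup hsum'
  refine h1.trans ?_
  apply mul_le_mul_of_nonneg_left _ (pow_nonneg hN.le _)
  have hρ0 : 0 ≤ (s : ℝ) / (Fintype.card V : ℝ) := by positivity
  have hk0 : (0 : ℝ) < ((r + 1 : ℕ) : ℝ) := by positivity
  have h2 := Bd_le (r + 1) C ((s : ℝ) / (Fintype.card V : ℝ)) (by omega) hρ0
  rw [← hA] at h2
  have h3 : (s : ℝ) / (Fintype.card V : ℝ) / ((r + 1 : ℕ) : ℝ) ≤ x + η := by
    rw [div_le_iff₀ hk0, div_le_iff₀ hN]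
    calc (s : ℝ) ≤ _ := hsη
      _ = _ := by ring
  have h4 := GG_mono (r + 1) A _ (x + η) (by positivity) h3 (by linarith)
  have h5 := hδ' (x + η) (by
    rw [Real.dist_eq]
    have : x + η - x = η := by ring
    rw [this, abs_of_pos hη0]
    linarith)
  rw [Real.dist_eq] at h5
  have h6 := (abs_lt.1 h5).2
  linarith

end Pool.Agent.W804.IR
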