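import Pool.Agent.W593.IR.Stm

set_option autoImplicit false

namespace Pool.Agent.W804.IR

open Finset Pool.Agent.W890.SF Filter Topology Pool.Agent.W593.IR

theorem NG_add_NL {V : Type} [Fintype V] (y : V → ℝ) (j : ℕ) :
    NG y j + NL y j = Fintype.card V ^ j := by
  classical
  unfold NG NL
  have h : {f : Fin j → V | ∑ i, y (f i) < 1} = {f : Fin j → V | 1 ≤ ∑ i, y (f i)}ᶜ := by
    ext f
    simp
  rw [h, Set.ncard_add_ncard_compl, Nat.card_eq_fintype_card, Fintype.card_fun, Fintype.card_fin]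

theorem NG_mono {V : Type} [Fintype V] (y y' : V → ℝ) (h : ∀ v, y v ≤ y' v) (j : ℕ) :
    NG y j ≤ NG y' j := by
  unfold NG
  refine Set.ncard_le_ncard ?_ (Set.toFinite _)
  intro f hf
  have h1 : 1 ≤ ∑ i, y (f i) := hf
  exact h1.trans (Finset.sum_le_sum fun i _ => h _)

theorem bd (h1 : S_SJ) (h2 : S_PJ) (h3 : S_CNT) (h4 : S_BIN) : S_BD := by
  intro r C hr hC hST V _ _ y s hy hs hsV hsupp hsum
  obtain ⟨S, hSs, -, hSc⟩ := Finset.exists_subsuperset_card_eq
    (subset_univ (univ.filter (fun v => y v ≠ 0))) hsupp (by rwa [card_univ])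
  have hs0 : (0 : ℝ) < s := by exact_mod_cast hs
  have hr0 : (0 : ℝ) < (r : ℝ) + 1 := by positivity
  set κ : ℝ := ((s : ℝ) / ((r : ℝ) + 1) - ∑ v, y v) / s with hκ
  have hκ0 : 0 ≤ κ := by
    refine div_nonneg ?_ hs0.le
    rw [sub_nonneg, le_div_iff₀ hr0]
    linarith
  set y' : V → ℝ := fun v => if v ∈ S then y v + κ else 0 with hy'
  have hyS : ∀ v, v ∉ S → y v = 0 := by
    intro v hv
    by_contra h
    exact hv (hSs (mem_filter.2 ⟨mem_univ v, h⟩))
  have hyy : ∀ v, y v ≤ y' v := by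
    intro v
    by_cases hv : v ∈ S
    · simp only [hy', if_pos hv]
      linarith
    · simp only [hy', if_neg hv]
      rw [hyS v hv]
  have hy'0 : ∀ v, 0 ≤ y' v := fun v => (hy v).trans (hyy v)
  have hy'S : ∀ v, v ∉ S → y' v = 0 := by
    intro v hv
    simp only [hy', if_neg hv]
  -- the restriction
  set z : S → ℝ := fun v => y' v.1 with hz
  have hcardS : Fintype.card S = s := by rw [Fintype.card_coe, hSc]
  haveI : Nonempty S := by
    rw [← Fintype.card_pos_iff, hcardS]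
    exact hs
  have hz0 : ∀ v, 0 ≤ z v := fun v => hy'0 _
  have hzsum : ((r : ℝ) + 1) * ∑ v, z v = (Fintype.card S : ℝ) := by
    have e1 : ∑ v, z v = ∑ v ∈ S, (y v + κ) := by
      rw [hz]
      have := Finset.sum_coe_sort S y'
      rw [this]
      refine Finset.sum_congr rfl fun v hv => ?_
      simp only [hy', if_pos hv]
    have e2 : ∑ v ∈ S, y v = ∑ v, y v :=
      Finset.sum_subset (subset_univ _) fun v _ hv => hyS v hv
    rw [e1, Finset.sum_add_distrib, e2, Finset.sum_const, nsmul_eq_mul, hSc, hcardS, hκ]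
    field_simp
    ring
  have hcR : (Fintype.card S : ℝ) = s := by exact_mod_cast hcardS
  set p : ℕ → ℝ := fun j => (NG z j : ℝ) / (s : ℝ) ^ j with hp
  have hadd : ∀ j, (NG z j : ℝ) + (NL z j : ℝ) = (s : ℝ) ^ j := by
    intro j
    have := NG_add_NL z j
    rw [hcardS] at this
    exact_mod_cast this
  set N : ℝ := (Fintype.card V : ℝ) with hN
  have hsN : (s : ℝ) ≤ N := by rw [hN]; exact_mod_cast hsV
  have hN0 : 0 < N := by linarith
  have hBIN := h4 r C ((s : ℝ) / N) p hr hC (by positivity) (by rw [div_le_one hN0]; exact hsN)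
    ?_ ?_ ?_ ?_ ?_
  · -- conclusion
    have hmono := NG_mono y y' hyy (r + 1)
    have hcnt := h3 V y' S (r + 1) hy'0 hy'S
    have hmonoR : (NG y (r + 1) : ℝ) ≤ (NG y' (r + 1) : ℝ) := by exact_mod_cast hmono
    refine hmonoR.trans ?_
    rw [hcnt]
    refine le_trans (le_of_eq ?_) (mul_le_mul_of_nonneg_left hBIN (by positivity))
    rw [Finset.mul_sum]
    refine Finset.sum_congr rfl fun j hj => ?_
    have hj' : j ≤ r + 1 := by
      have := mem_range.1 hj
      omega
    have hsplit : N ^ (r + 1) = N ^ (r + 1 - j) * N ^ j := by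
      rw [← pow_add]
      congr 1
      omega
    have e1 : N ^ (r + 1 - j) * (1 - (s : ℝ) / N) ^ (r + 1 - j) = (N - s) ^ (r + 1 - j) := by
      rw [← mul_pow]
      congr 1
      field_simp
    have e2 : N ^ j * ((s : ℝ) / N) ^ j = (s : ℝ) ^ j := by
      rw [← mul_pow]
      congr 1
      field_simp
    have e3 : (s : ℝ) ^ j * p j = (NG z j : ℝ) := by
      rw [hp]
      field_simp
    rw [hSc]
    calc ((r + 1).choose j : ℝ) * (N - (s : ℝ)) ^ (r + 1 - j) * (NG z j : ℝ)
        = ((r + 1).choose j : ℝ) * (N ^ (r + 1 - j) * (1 - (s : ℝ) / N) ^ (r + 1 - j)) *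
          ((N ^ j * ((s : ℝ) / N) ^ j) * p j) := by
          rw [e1, e2, e3]
      _ = N ^ (r + 1) * (((r + 1).choose j : ℝ) * (1 - (s : ℝ) / N) ^ (r + 1 - j) *
          ((s : ℝ) / N) ^ j * p j) := by
          rw [hsplit]
          ring
  · -- p 0 = 0
    have h0 : NG z 0 = 0 := by
      unfold NG
      rw [Set.ncard_eq_zero (Set.toFinite _)]
      ext f
      simp only [Set.mem_setOf_eq, Set.mem_empty_iff_false, iff_false, not_le]
      simp
    rw [hp]
    simp [h0]
  · intro j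
    have e1 := hadd j
    have e2 : (0 : ℝ) ≤ NG z j := Nat.cast_nonneg _
    have e3 : (0 : ℝ) ≤ NL z j := Nat.cast_nonneg _
    have e4 : (0 : ℝ) < (s : ℝ) ^ j := by positivity
    simp only [hp]
    refine ⟨by positivity, ?_⟩
    rw [div_le_one e4]
    linarith
  · intro j hj1 hj2
    have := h2 S z r j hz0 hzsum hj1 hj2
    rw [hcR] at this
    exact this
  · have e1 := h1 S z r r hz0 hzsum le_rfl
    rw [hcR] at e1
    have e2 := hadd r
    have e4 : (0 : ℝ) < (s : ℝ) ^ r := by positivity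
    simp only [hp]
    rw [div_le_iff₀ e4]
    linarith
  · have e1 := hST S z hz0 hzsum
    rw [hcR] at e1
    have e1' : (NG z r : ℝ) * (s : ℝ) ≤ C * (NL z (r + 1) : ℝ) := e1
    have e2 := hadd (r + 1)
    have e4 : (0 : ℝ) < (s : ℝ) ^ r := by positivity
    have e5 : (0 : ℝ) < (s : ℝ) ^ (r + 1) := by positivity
    simp only [hp]
    have e6 : 1 - (NG z (r + 1) : ℝ) / (s : ℝ) ^ (r + 1) = (NL z (r + 1) : ℝ) / (s : ℝ) ^ (r + 1) := by
      rw [eq_div_iff e5.ne', sub_mul, div_mul_cancel₀ _ e5.ne']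
      linarith
    rw [e6, div_le_iff₀ e4]
    have e7 : C * ((NL z (r + 1) : ℝ) / (s : ℝ) ^ (r + 1)) * (s : ℝ) ^ r =
        C * (NL z (r + 1) : ℝ) / s := by
      rw [pow_succ]
      field_simp
    rw [e7, le_div_iff₀ hs0]
    exact e1'

end Pool.Agent.W804.IR
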